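import Pool.Agent.H66.Sig2

/-!
The loading problem for the three-neuron network with two standard sigmoid hidden neurons and a
threshold output neuron, on Boolean inputs, is NP-hard.
-/

namespace Pool.Agent.Results.MP_52a6f5_lc.Hard

open Pool.Agent.H38.NP Pool.Agent.H66.Sig

theorem result : NPHard (lang fun I => Valid I ∧ Load I) :=
  load_nph.npHard fun _ h => ⟨fun h' => ⟨h, h'⟩, fun h' => h'.2⟩

end Pool.Agent.Results.MP_52a6f5_lc.Hard
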